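import Mathlib
import Pool.Agent.TH764.OG.Rank6

/-!
# All limit ordinals `α < ω₃` with `P(α)`, under `2 ^ ℵ₀ = ℵ₁` and `2 ^ ℵ₁ = ℵ₂`
-/

set_option autoImplicit false

namespace Pool.Agent.Results.MP_931ca8_lc.BelowOmegaThree

open Cardinal Ordinal

/-- `P(α)`: every graph on `α` (realised as the well-ordered type `α.ToType` of order type `α`) has
an infinite path (an injective sequence of vertices, consecutive ones adjacent) or an independent
set of order type `α`. -/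
def P (α : Ordinal.{0}) : Prop :=
  ∀ G : SimpleGraph α.ToType,
    (∃ f : ℕ → α.ToType, Function.Injective f ∧ ∀ n, G.Adj (f n) (f (n + 1))) ∨
    ∃ S : Set α.ToType, G.IsIndepSet S ∧ typeLT S = α

/-- `l` is closed: for every `ρ < l` the functions from `ω₁` to `ρ`, ordered by `s < t` if
`s i < t i` for all but countably many `i < ω₁`, can be mapped to `l` strictly increasingly
(equivalently: all these functions have rank `< l` in this well-founded order). -/
def Closed (l : Ordinal.{0}) : Prop :=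
  ∀ ρ < l, ∃ r : ((ℵ₁ : Cardinal.{0}).ord.ToType → ρ.ToType) → l.ToType,
    ∀ s t, {i | ¬ s i < t i}.Countable → r s < r t

/-- Write `e = l + n` with `l` zero or a limit ordinal and `n` finite. The exponent `e` is good if
`l` is closed, and `cf l ≠ ω₁` or `n < 2`. -/
def Good (e : Ordinal.{0}) : Prop :=
  Closed (ω * (e / ω)) ∧ ((ω * (e / ω)).cof ≠ ℵ₁ ∨ e % ω < 2)

/-- Assume `2 ^ ℵ₀ = ℵ₁` and `2 ^ ℵ₁ = ℵ₂`. For a limit ordinal `α < ω₃`, `P(α)` holds if and only
if each term `ω ^ γ` of the Cantor normal form of `α` is less than `ω₁ ^ (ω + 2)`, or is at least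
`ω₂` and has a good logarithm `e` to base `ω₂` (`ω₂ ^ e ≤ ω ^ γ < ω₂ ^ (e + 1)`). -/
theorem result (hCH : (2 : Cardinal.{0}) ^ (ℵ₀ : Cardinal.{0}) = ℵ₁)
    (h2 : (2 : Cardinal.{0}) ^ (ℵ₁ : Cardinal.{0}) = ℵ_ 2)
    (α : Ordinal.{0}) (hα : Order.IsSuccLimit α) (hlt : α < ω_ 3) :
    P α ↔ ∀ γ ∈ (CNF ω α).map Prod.fst,
      ω ^ γ < ω_ 1 ^ (ω + 2) ∨ (ω_ 2 ≤ ω ^ γ ∧ Good (log (ω_ 2) (ω ^ γ))) := by
  have h1 : ∀ e, Good e ↔ TH764.OG.GoodE e := fun e => by
    unfold Good TH764.OG.GoodE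
    rw [TH764.OG.cld_iff]
    rfl
  have h3 : P α ↔ TH764.OG.Rel α := forall_congr' fun _ => or_comm
  rw [h3, TH764.OG.exact_omega3 hCH h2 hα hlt]
  refine forall_congr' fun γ => forall_congr' fun _ => ?_
  rw [h1]

end Pool.Agent.Results.MP_931ca8_lc.BelowOmegaThree
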