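import Mathlib
import Pool.Agent.TH764.OG.Lim5

/-!
# All limit ordinals `α` with `P(α)`, when each uncountable term of `α` has cardinality `μ⁺` with
`2 ^ μ = μ⁺`, or strong limit cardinality `κ` and is less than `κ ^ (κ ^ κ)`, or limit cardinality
`κ` and is less than `κ ^ κ`
-/

set_option autoImplicit false

namespace Pool.Agent.Results.MP_931ca8_lc.ExactUnderGch

open Cardinal Ordinal

/-- `P(α)`: every graph on `α` (realised as the well-ordered type `α.ToType` of order type `α`) has
an infinite path (an injective sequence of vertices, consecutive ones adjacent) or an independent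
set of order type `α`. -/
def P (α : Ordinal.{0}) : Prop :=
  ∀ G : SimpleGraph α.ToType,
    (∃ f : ℕ → α.ToType, Function.Injective f ∧ ∀ n, G.Adj (f n) (f (n + 1))) ∨
    ∃ S : Set α.ToType, G.IsIndepSet S ∧ typeLT S = α

/-- The functions from `μ` to `ρ`, ordered by `s < t` if `s i < t i` for all but finitely many
`i < μ`, can be mapped to `l` strictly increasingly. -/
def Ranked (μ : Cardinal.{0}) (ρ l : Ordinal.{0}) : Prop :=
  ∃ r : (μ.ord.ToType → ρ.ToType) → l.ToType, ∀ s t, {i | ¬ s i < t i}.Finite → r s < r t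

/-- Write `e = l + n` with `l` zero or a limit ordinal and `n` finite. The exponent `e` is `μ`-good
if the functions from `μ` to `l` are ranked in `l`, or `n < 2` and for every `ρ < l` the functions
from `μ` to `ρ` are ranked in `l`. -/
def Good (μ : Cardinal.{0}) (e : Ordinal.{0}) : Prop :=
  Ranked μ (ω * (e / ω)) (ω * (e / ω)) ∨
    ((∀ ρ < ω * (e / ω), Ranked μ ρ (ω * (e / ω))) ∧ e % ω < 2)

/-- Let `α` be a limit ordinal such that for every uncountable term `ω ^ γ` of its Cantor normal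
form, of cardinality `κ` say, `κ = μ⁺` for some `μ` with `2 ^ μ = μ⁺`, or `κ` is a strong limit and
`ω ^ γ < κ ^ (κ ^ κ)`, or `κ` is a limit cardinal and `ω ^ γ < κ ^ κ` (ordinal arithmetic). Then `P(α)` holds if and only if for each uncountable term
`ω ^ γ` of cardinality `μ⁺`, the exponent `e` with `(μ⁺) ^ e ≤ ω ^ γ < (μ⁺) ^ (e + 1)` is
`μ`-good. -/
theorem result (α : Ordinal.{0}) (hα : Order.IsSuccLimit α)
    (h : ∀ γ ∈ (CNF ω α).map Prod.fst, ∀ κ : Cardinal.{0}, (ω ^ γ).card = κ → ℵ₀ < κ →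
      (∃ μ : Cardinal.{0}, (2 : Cardinal.{0}) ^ μ = Order.succ μ ∧ κ = Order.succ μ) ∨
      (κ.IsStrongLimit ∧ ω ^ γ < κ.ord ^ (κ.ord ^ κ.ord)) ∨
      (Order.IsSuccLimit κ ∧ ω ^ γ < κ.ord ^ κ.ord)) :
    P α ↔ ∀ γ ∈ (CNF ω α).map Prod.fst, ∀ μ : Cardinal.{0}, ℵ₀ ≤ μ →
      (ω ^ γ).card = Order.succ μ → Good μ (log (Order.succ μ).ord (ω ^ γ)) := by
  have h1 : ∀ μ e, Good μ e ↔ TH764.OG.GoodF μ e := fun μ e => by
    unfold Good TH764.OG.GoodF
    refine or_congr ?_ (and_congr_left fun _ => ?_)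
    · exact TH764.OG.not_wf_iff.symm
    · exact forall_congr' fun ρ => forall_congr' fun _ => TH764.OG.not_wf_iff.symm
  have h3 : P α ↔ TH764.OG.Rel α := forall_congr' fun _ => or_comm
  rw [h3, TH764.OG.exact_all2 hα (fun γ hγ hc => h γ hγ _ rfl hc)]
  refine forall_congr' fun γ => forall_congr' fun _ => forall_congr' fun μ =>
    forall_congr' fun _ => forall_congr' fun _ => ?_
  rw [h1]

end Pool.Agent.Results.MP_931ca8_lc.ExactUnderGch
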