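import Mathlib
import Pool.Agent.TH764.OG.Norm6

/-!
# `P(α)` for all terms below `κ ^ (μ * (θ + 1) + 2)`
-/

set_option autoImplicit false

namespace Pool.Agent.Results.MP_931ca8_lc.LongIntervals

open Cardinal Ordinal

/-- `P(α)`: every graph on `α` (realised as the well-ordered type `α.ToType` of order type `α`) has
an infinite path (an injective sequence of vertices, consecutive ones adjacent) or an independent
set of order type `α`. -/
def P (α : Ordinal.{0}) : Prop :=
  ∀ G : SimpleGraph α.ToType,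
    (∃ f : ℕ → α.ToType, Function.Injective f ∧ ∀ n, G.Adj (f n) (f (n + 1))) ∨
    ∃ S : Set α.ToType, G.IsIndepSet S ∧ typeLT S = α

/-- Let `α` be a limit ordinal such that for each uncountable term `ω ^ γ` of its Cantor normal form
the cardinality `κ` of `ω ^ γ` is regular and there are cardinals `θ < μ < κ`, `θ` regular and
uncountable, `cf μ ≠ θ`, with `ρ ^ θ < μ` (cardinal power) for all cardinals `ρ < μ` and
`ω ^ γ < κ ^ (μ * (θ + 1) + 2)` (ordinal arithmetic). Then `P(α)` holds. -/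
theorem result (α : Ordinal.{0}) (hα : Order.IsSuccLimit α)
    (h : ∀ γ ∈ (CNF ω α).map Prod.fst, ∀ κ : Cardinal.{0}, (ω ^ γ).card = κ → ℵ₀ < κ →
      κ.IsRegular ∧ ∃ μ θ : Cardinal.{0}, θ.IsRegular ∧ ℵ₀ < θ ∧ θ < μ ∧ μ < κ ∧
        μ.ord.cof ≠ θ ∧ (∀ ρ < μ, ρ ^ θ < μ) ∧
        ω ^ γ < κ.ord ^ (μ.ord * (θ.ord + 1) + 2)) : P α := fun G =>
  (TH764.OG.main_long_terms hα (fun γ hγ hc => h γ hγ _ rfl hc) G).symm

end Pool.Agent.Results.MP_931ca8_lc.LongIntervals
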